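import Pool.Agent.Helper52.SX.Goals
import Pool.Agent.Helper87.CS.PRG

/-!
# Packet SX-PGT: some candidate is good, for tuples
-/

namespace Pool.Agent.Helper4.SX

open Pool.Agent.Helper81.CC Pool.Agent.Helper78.DT Pool.Agent.Helper51.ZP Pool.Agent.Helper65.CS
  Pool.Agent.Helper52.SX
open scoped Classical

/-- The fraction of the restricted tuple. -/
theorem fract_rst (hR : RttStmt) (hT : TdtStmt) (n W l : ℕ) (z : Tup) (hz : NFT n W l z)
    (e : List (ℕ × Bool)) (h1 : (e.map Prod.fst).Nodup) (h2 : ∀ p ∈ e, p.1 < n) :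
    fract n (rstT e z) = pr fun x : Fin n → Bool => tv (ovr e x) z = true := by
  rw [(hT n W l (rstT e z) (hR.1 n W l e z hz).1).2.2]
  refine pr_congr fun x => ?_
  rw [hR.2 n e z x h1 h2]

theorem pgt (hS : SttStmt) (hR : RttStmt) (hT : TdtStmt) (hC : CndStmt) : PgtStmt := by
  intro n W l b u0 c1 M s z hz hM hc1 hb hnM hal
  obtain ⟨hnd, hlt, hcand, hsmall⟩ := hC b M n s
  have hlen : (al n s).length ≤ n := by
    have := List.length_filter_le (fun v => !s.contains (v, true) && !s.contains (v, false))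
      (List.range n)
    rwa [List.length_range] at this
  have hM0 : (0 : ℝ) < M := by
    have : (0 : ℕ) < M := by omega
    exact_mod_cast this
  have hfG : fract n z = pr fun x : Fin n → Bool => tv x z = true := (hT n W l z hz).2.2
  rcases le_or_gt (2 ^ b) (al n s).length with hbig | hsm
  · -- pseudorandom candidates
    have hle : ((al n s).length : ℝ) / M ≤ (n : ℝ) / M :=
      div_le_div_of_nonneg_right (by exact_mod_cast hlen) hM0.le
    obtain ⟨x, hx, y, hy, hxy⟩ := hS n z.1.length (fun j => tdl n (z.1.get j)) (hh z.2) (al n s)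
      b W u0 c1 M l (fun j => ((hT n W l z hz).1 j).1) (fun j => ((hT n W l z hz).1 j).2.1)
      (fun j => ((hT n W l z hz).1 j).2.2) hnd hlt hM hc1 hb (hle.trans hnM)
    have hmem : ex (al n s) b x y ∈ cands b M n s := by
      unfold cands
      rw [if_pos hbig, List.mem_flatMap]
      exact ⟨x, hx, List.mem_map.2 ⟨y, hy, rfl⟩⟩
    refine ⟨_, hmem, ?_⟩
    obtain ⟨h1, h2, -, -⟩ := hcand _ hmem
    rw [fract_rst hR hT n W l z hz _ h1 (fun p hp => hlt _ (h2 p hp)), hfG]
    have e1 : (pr fun a : Fin n → Bool => tv a z = true) =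
        pr fun a : Fin n → Bool => hh z.2 (fun j : Fin z.1.length =>
          ev (tdl n (z.1.get j)) a) = true :=
      pr_congr fun a => by rw [(hT n W l z hz).2.1 a]
    have e2 : (pr fun a : Fin n → Bool => tv (ovr (ex (al n s) b x y) a) z = true) =
        pr fun a : Fin n → Bool => hh z.2 (fun j : Fin z.1.length =>
          ev (tdl n (z.1.get j)) (ovr (ex (al n s) b x y) a)) = true :=
      pr_congr fun a => by rw [(hT n W l z hz).2.1 _]
    rw [e1, e2]
    refine hxy.trans ?_
    refine add_le_add le_rfl ?_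
    unfold lossT
    have h3 : (2 : ℝ) ^ (z.1.length * c1) * (((al n s).length : ℝ) / M) ≤
        2 ^ (z.1.length * c1) * ((n : ℝ) / M) :=
      mul_le_mul_of_nonneg_left hle (by positivity)
    linarith
  · -- both values of one variable
    obtain ⟨v, hv, hv1, hv2⟩ := hsmall hsm hal
    have hvn : v < n := hlt v hv
    have hloss : 0 ≤ lossT z.1.length W b u0 c1 M n l := by
      unfold lossT
      have h0 : ∀ u ∈ Finset.Ico c1 (c1 + u0), (0 : ℝ) ≤ (8 * (W : ℝ) * (2 / 2 ^ b)) ^ u :=
        fun u _ => by positivity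
      have h1 := Finset.sum_nonneg h0
      have h2 : (0 : ℝ) ≤ (l : ℝ) * ((W : ℝ) * (2 / 2 ^ b)) ^ u0 := by positivity
      have h3 : (0 : ℝ) ≤ 2 ^ (z.1.length * c1) * ((n : ℝ) / M) := by positivity
      have h4 : (0 : ℝ) ≤ (z.1.length : ℝ) * ((l : ℝ) * ((W : ℝ) * (2 / 2 ^ b)) ^ u0 +
          ∑ u ∈ Finset.Ico c1 (c1 + u0), (8 * (W : ℝ) * (2 / 2 ^ b)) ^ u) :=
        mul_nonneg (Nat.cast_nonneg _) (add_nonneg h2 h1)
      linarith
    obtain ⟨F, hF⟩ : ∃ F : (Fin n → Bool) → ℝ,
        F = fun x => @ite ℝ (tv x z = true) (Classical.propDecidable _) 1 0 := ⟨_, rfl⟩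
    have key : ∀ c : Bool, [(v, c)] ∈ cands b M n s →
        fract n (rstT [(v, c)] z) =
          av fun x : Fin n → Bool => F (Function.update x ⟨v, hvn⟩ c) := by
      intro c hc
      obtain ⟨h1, h2, -, -⟩ := hcand _ hc
      rw [fract_rst hR hT n W l z hz _ h1 (fun p hp => hlt _ (h2 p hp)), pr_eq_av]
      refine av_congr fun x => ?_
      rw [Pool.Agent.Helper87.CS.ovr_one v hvn c x, hF]
    have hs := Pool.Agent.Helper87.CS.av_split ⟨v, hvn⟩ F
    rw [← key false hv1, ← key true hv2] at hs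
    have hfG' : fract n z = av F := by
      rw [hfG, pr_eq_av, hF]
    rw [← hfG'] at hs
    rcases le_total (fract n z) (fract n (rstT [(v, false)] z)) with h | h
    · exact ⟨_, hv1, by linarith⟩
    · exact ⟨_, hv2, by linarith⟩

end Pool.Agent.Helper4.SX
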